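import Pool.Agent.H41.ZC.Def

/-!
# [H41 ZC Clo] THEOREM Z: the field of a transitive prime is algebraically closed in `K`

`f` algebraic over `F = eqF x y`, `p` its minimal polynomial, `p = (X - f) q` in `K[X]`, `q (f) = p' (f) ≠ 0`.  `x p = y p`, so `y f` is a
root of `x p = (X - x f) (x q)`; if `y f ≠ x f` then `(x q) (y f) = 0`, i.e. `∑ q_i ⊗ f ^ i ∈ ptI x y ≤ dI`, so `q (f) = 0`.
-/

set_option autoImplicit false

open scoped TensorProduct

namespace Pool.Agent.H41.ZC

open Pool.Agent.H24.TU Polynomial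

universe u

variable {k K κ : Type u} [Field k] [CharZero k] [Field K] [Field κ] [Algebra k K] [Algebra k κ]

theorem eqF_closed (x y : K →ₐ[k] κ) (hPI : ptI x y ≤ dI k K) (f : K) (hf : IsAlgebraic (eqF x y) f) :
    f ∈ eqF x y := by
  by_contra hcon
  have hne : x f ≠ y f := hcon
  have hint : IsIntegral (eqF x y) f := hf.isIntegral
  have hc0 : CharZero (eqF x y) := charZero_of_injective_algebraMap (algebraMap k (eqF x y)).injective
  obtain ⟨p, hp⟩ : ∃ p, p = minpoly (eqF x y) f := ⟨_, rfl⟩
  have hroot : (p.map (algebraMap (eqF x y) K)).IsRoot f := by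
    rw [IsRoot, eval_map_algebraMap, hp]
    exact minpoly.aeval _ _
  obtain ⟨q, hq⟩ := dvd_iff_isRoot.2 hroot
  have hsep : (p.map (algebraMap (eqF x y) K)).derivative.eval f ≠ 0 := by
    have h1 : p.Separable := by
      rw [hp]
      exact (minpoly.irreducible hint).separable
    have h2 := (h1.map (f := algebraMap (eqF x y) K)).eval₂_derivative_ne_zero (RingHom.id K) (x := f) (by
      rw [eval₂_id]
      exact hroot)
    rwa [eval₂_id] at h2
  have hqf : q.eval f ≠ 0 := by
    rw [hq, derivative_mul] at hsep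
    simpa using hsep
  -- the two images of `p`
  have hxy : (p.map (algebraMap (eqF x y) K)).map (x : K →+* κ) =
      (p.map (algebraMap (eqF x y) K)).map (y : K →+* κ) := by
    ext i
    rw [coeff_map, coeff_map (f := (y : K →+* κ)), coeff_map]
    have h0 : x ((p.coeff i : eqF x y) : K) = y ((p.coeff i : eqF x y) : K) := (p.coeff i).2
    exact h0
  have h1 : ((p.map (algebraMap (eqF x y) K)).map (x : K →+* κ)).eval (y f) = 0 := by
    rw [hxy]
    have h2 : ((p.map (algebraMap (eqF x y) K)).map (y : K →+* κ)).eval ((y : K →+* κ) f) =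
        (y : K →+* κ) ((p.map (algebraMap (eqF x y) K)).eval f) := eval_map_apply _ _
    have h3 : (y : K →+* κ) f = y f := rfl
    rw [h3] at h2
    have h4 : (p.map (algebraMap (eqF x y) K)).eval f = 0 := hroot
    rw [h2, h4, map_zero]
  rw [hq, Polynomial.map_mul, Polynomial.map_sub, map_X, map_C, eval_mul, eval_sub, eval_X, eval_C] at h1
  have h2 : (q.map (x : K →+* κ)).eval (y f) = 0 := by
    rcases mul_eq_zero.1 h1 with h3 | h3
    · exact absurd (sub_eq_zero.1 h3).symm hne
    · exact h3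
  have h3 : ∑ i ∈ q.support, q.coeff i ⊗ₜ[k] (f ^ i) ∈ ptI x y := by
    rw [mem_ptI, map_sum, ← h2, eval_map, eval₂_eq_sum, Polynomial.sum]
    refine Finset.sum_congr rfl fun i _ => ?_
    rw [pt_tmul, map_pow]
    rfl
  have h4 := hPI h3
  unfold dI at h4
  rw [mem_ptI, map_sum] at h4
  apply hqf
  rw [eval_eq_sum, Polynomial.sum, ← h4]
  refine Finset.sum_congr rfl fun i _ => ?_
  rw [pt_tmul]
  rfl

theorem IsPF.closed {F : IntermediateField k K} (h : IsPF F) (f : K) (hf : IsAlgebraic F f) : f ∈ F := by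
  obtain ⟨κ, _, _, x, y, hxy, hPI, -⟩ := h
  subst hxy
  exact eqF_closed x y hPI f hf

end Pool.Agent.H41.ZC
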