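import Pool.Agent.H41.ZC.EndQ
import Pool.Agent.H32.TZ.Itf
import Pool.Agent.H41.TU.ClB

/-!
# [H41 ZC Fin] THEOREM Z: the chapters CHAIN and END in the form of `H32/TZ/Itf.lean`

* `chain_z`: two different closed fields `F`, `F'` with `dim_F (F L) ≤ u`, `dim_F' (F' L) ≤ u'` give a surface.
* `end_z`: a field `F` of a transitive prime with `dim_F (F L (D)) ≤ u` gives a surface, or
  `κ₀ ^ 2 / 2 * a ^ 2 * b * R_F (A) ≤ vol (a D + b A)` for all ample `A` and `a, b ≥ 1`.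
-/

set_option autoImplicit false

open scoped TensorProduct

namespace Pool.Agent.H41.ZC

open Pool.Agent.H54.RV Pool.Agent.H83.TU Pool.Agent.H24.TU Pool.Agent.H39.TU Pool.Agent.H20.TU Pool.Agent.H39.TQ

theorem srf_of {k K : Type} [Field k] [Field K] [Algebra k K] {L : Submodule k K} {r κ : ℕ} (h : Srf k K L r)
    (hr : r ≤ κ + 1) : Pool.Agent.H32.TZ.Srf L κ := by
  obtain ⟨Q, h1, -, h3, h4⟩ := h
  exact ⟨Q, h1, h3, fun G hG hs => h4 G hG (OrdGE_mono hr hs)⟩

theorem chain_z {k K : Type} [Field k] [CharZero k] [IsAlgClosed k] [Field K] [Algebra k K]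
    [Algebra.EssFiniteType k K] (htr : Algebra.trdeg k K = 3) (L : Submodule k K) (F F' : IntermediateField k K)
    (u u' : ℕ) (hL : FiniteDimensional k L) (hF : Algebra.trdeg F K = 1) (hF' : Algebra.trdeg F' K = 1)
    (hc : Clo F) (hc' : Clo F') (hne : F ≠ F') (hu : Pool.Agent.H32.TZ.GrwL F L u)
    (hu' : Pool.Agent.H32.TZ.GrwL F' L u') (hn : (u + u' + 3).choose 3 < Module.finrank k L) :
    Pool.Agent.H32.TZ.Srf L (u + u') :=
  srf_of (chain_srf htr L hL F F' hF hF' hc hc' hne u u' hu hu' hn) le_rfl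

variable {k K : Type} [Field k] [Field K] [Algebra k K] {X : Mod k K}

theorem end_z [IsAlgClosed k] [CharZero k] (h : Hyp X) (D : Cart X) (F : IntermediateField k K) (u κ₀ : ℕ)
    (hD : 0 < h0 D 1) (hF : Algebra.trdeg F K = 1) (hPF : IsPF F) (hu : Pool.Agent.H32.TZ.GrwL F (secL D 1) u)
    (hn : (κ₀ + u + 3).choose 3 < h0 D 1) :
    Pool.Agent.H32.TZ.Srf (secL D 1) (κ₀ + u) ∨ ∀ A : Cart X, Ample A → ∀ a b : ℕ, 1 ≤ a → 1 ≤ b →
      (κ₀ : ℝ) ^ 2 / 2 * a ^ 2 * b * RF h.var h.gen F A ≤ vol (D ^ a * A ^ b) := by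
  have hess : Algebra.EssFiniteType k K := by
    have h1 := K_fg h.var h.gen
    have h2 := IntermediateField.essFiniteType_iff.2 h1
    exact Algebra.EssFiniteType.of_surjective
      (IntermediateField.topEquiv (F := k) (E := K)).toAlgHom
      (IntermediateField.topEquiv (F := k) (E := K)).surjective
  by_cases hS : Srf k K (secL D 1) (κ₀ + u)
  · exact Or.inl (srf_of hS (Nat.le_succ _))
  right
  intro A hA a b ha hb
  obtain ⟨m, s, hs, hm, -, hE', hA'⟩ := exists_eff h A hA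
  refine le_of_forall_gt_imp_ge_of_dense fun w hw => ?_
  -- the bound for one `q`
  have hq : ∀ q : ℕ, max 2 (m * a + 1) ≤ q →
      (κ₀ : ℝ) ^ 2 / 2 * a ^ 2 * ((b - m * a / q) * RF h.var h.gen F A - 1 / q) ≤ w := by
    intro q hq
    have hq2 : 2 ≤ q := (le_max_left _ _).trans hq
    have hqm : m * a + 1 ≤ q := (le_max_right _ _).trans hq
    have hq0 : (0 : ℝ) < q := by
      have : 0 < q := by omega
      exact_mod_cast this
    have hab : m * a < b * q := lt_of_lt_of_le (Nat.lt_of_succ_le hqm) (Nat.le_mul_of_pos_left q (by omega))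
    have h1 := end_srf h.tr (gsys h D _ hD hA' hE' q hq2) F hPF hF κ₀ u (by
      rw [gsys_one]
      exact hu) (by
      rw [gsys_one]
      refine lt_of_le_of_lt (Nat.choose_le_choose 3 (by omega)) hn)
    rw [gsys_one] at h1
    rcases h1 with h1 | ⟨c, hc⟩
    · exact absurd h1 hS
    · have h2 := end_q h D A hD hA m s hs hE' hA' q hq2 F hF κ₀ c hc a b ha hab w hw
      have h3 : ((κ₀ : ℝ) ^ 2 / 2 * a ^ 2 * ((b - m * a / q) * RF h.var h.gen F A - 1 / q)) * q ≤ w * q := by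
        calc ((κ₀ : ℝ) ^ 2 / 2 * a ^ 2 * ((b - m * a / q) * RF h.var h.gen F A - 1 / q)) * q
            = (κ₀ : ℝ) ^ 2 / 2 * a ^ 2 * ((b * q - m * a) * RF h.var h.gen F A - 1) := by
              field_simp
          _ ≤ w * q := h2
      exact le_of_mul_le_mul_right h3 hq0
  have hlim : Filter.Tendsto (fun q : ℕ => (κ₀ : ℝ) ^ 2 / 2 * a ^ 2 *
      (((b : ℝ) - (m * a : ℝ) / (q : ℝ)) * RF h.var h.gen F A - 1 / (q : ℝ))) Filter.atTop
      (nhds ((κ₀ : ℝ) ^ 2 / 2 * a ^ 2 * (((b : ℝ) - 0) * RF h.var h.gen F A - 0))) :=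
    (((tendsto_const_nhds.sub (tendsto_const_div_atTop_nhds_zero_nat (m * a : ℝ))).mul_const _).sub
      (tendsto_const_div_atTop_nhds_zero_nat (1 : ℝ))).const_mul _
  have h1 := le_of_tendsto hlim (Filter.eventually_atTop.2 ⟨_, hq⟩)
  rw [sub_zero, sub_zero] at h1
  calc (κ₀ : ℝ) ^ 2 / 2 * a ^ 2 * b * RF h.var h.gen F A =
      (κ₀ : ℝ) ^ 2 / 2 * a ^ 2 * ((b : ℝ) * RF h.var h.gen F A) := by ring
    _ ≤ w := h1

end Pool.Agent.H41.ZC
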