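import Pool.Agent.H24.TU.Fld

/-!
# [H41 ZC Def] THEOREM Z (MP_e49dc9_ag): definitions of the function field part

* `Srf k K U r`: there is a hypersurface prime `Q` of `K ⊗ K` (coefficients on the left, `dI` the diagonal) which contains all
  `G ∈ K ⊗ U` of order at least `r` at the diagonal.
* `IsPF F`: `F` comes from a transitive prime `ptI x y ≤ dI`.
-/

set_option autoImplicit false

open scoped TensorProduct

namespace Pool.Agent.H41.ZC

open Pool.Agent.H24.TU

universe u

/-- a hypersurface prime contains all elements of high order at the diagonal -/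
def Srf (k K : Type u) [Field k] [Field K] [Algebra k K] (U : Submodule k K) (r : ℕ) : Prop :=
  ∃ Q : Ideal (K ⊗[k] K), Q.IsPrime ∧ Q ≠ ⊥ ∧ Algebra.trdeg K ((K ⊗[k] K) ⧸ Q) = 2 ∧
    ∀ G ∈ U.baseChange K, OrdGE (dI k K) r G → G ∈ Q

/-- the field `F` comes from a transitive prime -/
def IsPF {k K : Type u} [Field k] [Field K] [Algebra k K] (F : IntermediateField k K) : Prop :=
  ∃ (κ : Type u) (_ : Field κ) (_ : Algebra k κ) (x y : K →ₐ[k] κ), eqF x y = F ∧ ptI x y ≤ dI k K ∧
    (ptI x y).map (chg K x) ≤ (ptI x y).map (chg K y)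

theorem Srf.mono {k K : Type u} [Field k] [Field K] [Algebra k K] {U : Submodule k K} {r s : ℕ}
    (h : Srf k K U r) (hrs : ∀ G : K ⊗[k] K, OrdGE (dI k K) s G → OrdGE (dI k K) r G) : Srf k K U s := by
  obtain ⟨Q, h1, h2, h3, h4⟩ := h
  exact ⟨Q, h1, h2, h3, fun G hG hs => h4 G hG (hrs G hs)⟩

end Pool.Agent.H41.ZC
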