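import Pool.Agent.H24.TU.ResL
import Pool.Agent.H24.TU.Len
import Pool.Agent.H41.ZC.Def

/-!
# [H41 ZC Deg2] THEOREM Z, chapter END: the degree bound with two systems

As `degree_bound` of `H24/TU/Deg.lean`, with an arbitrary finite dimensional space `B` instead of `L_n`, and a space `Z` which
contains the products `L_(N + c) B`.
-/

set_option autoImplicit false

open scoped TensorProduct

namespace Pool.Agent.H41.ZC

open Pool.Agent.H24.TU

universe u

section bc

variable {k X K : Type u} [Field k] [Field X] [Field K] [Algebra k X] [Algebra k K]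

theorem bc_span (B : Submodule k K) : B.baseChange X =
    Submodule.span X ((fun f : K => (1 : X) ⊗ₜ[k] f) '' (B : Set K)) := by
  rw [Submodule.baseChange_eq_span]
  rfl

theorem bc_mul {A B Z : Submodule k K} (hZ : ∀ a ∈ A, ∀ b ∈ B, a * b ∈ Z) {a b : X ⊗[k] K}
    (ha : a ∈ A.baseChange X) (hb : b ∈ B.baseChange X) : a * b ∈ Z.baseChange X := by
  rw [bc_span] at ha hb
  have h1 : ∀ f ∈ A, ∀ b ∈ Submodule.span X ((fun f : K => (1 : X) ⊗ₜ[k] f) '' (B : Set K)),
      ((1 : X) ⊗ₜ[k] f) * b ∈ Z.baseChange X := by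
    intro f hf b hb
    induction hb using Submodule.span_induction with
    | mem b hb =>
      obtain ⟨g, hg, rfl⟩ := hb
      change ((1 : X) ⊗ₜ[k] f) * ((1 : X) ⊗ₜ[k] g) ∈ _
      rw [Algebra.TensorProduct.tmul_mul_tmul, mul_one]
      exact Submodule.tmul_mem_baseChange_of_mem _ (hZ f hf g hg)
    | zero =>
      rw [mul_zero]
      exact zero_mem _
    | add x y _ _ hx hy =>
      rw [mul_add]
      exact add_mem hx hy
    | smul c x _ hx =>
      rw [mul_smul_comm]
      exact Submodule.smul_mem _ _ hx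
  induction ha using Submodule.span_induction with
  | mem a ha =>
    obtain ⟨f, hf, rfl⟩ := ha
    exact h1 f hf b hb
  | zero =>
    rw [zero_mul]
    exact zero_mem _
  | add x y _ _ hx hy =>
    rw [add_mul]
    exact add_mem hx hy
  | smul c x _ hx =>
    rw [smul_mul_assoc]
    exact Submodule.smul_mem _ _ hx

theorem bc_finite (B : Submodule k K) [Module.Finite k B] : Module.Finite X (B.baseChange X) := by
  have h1 : B.baseChange X = LinearMap.range (B.subtype.baseChange X) := rfl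
  rw [h1]
  infer_instance

theorem bc_finrank (B : Submodule k K) [Module.Finite k B] :
    Module.finrank X (B.baseChange X) = Module.finrank k B := by
  have h1 : B.baseChange X = LinearMap.range (B.subtype.baseChange X) := rfl
  have h2 : Function.Injective (B.subtype.baseChange X) :=
    Module.Flat.lTensor_preserves_injective_linearMap (M := X) B.subtype (Submodule.subtype_injective _)
  rw [h1, LinearMap.finrank_range_of_inj h2]
  exact Module.finrank_baseChange

end bc

variable {k K : Type u} [Field k] [CharZero k] [Field K] [Algebra k K]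

private theorem exists_section {F V V' : Type*} [Field F] [AddCommGroup V] [Module F V]
    [AddCommGroup V'] [Module F V'] (φ : V →ₗ[F] V') (hφ : Function.Surjective φ) :
    ∃ σ : V' →ₗ[F] V, ∀ v, φ (σ v) = v := by
  obtain ⟨σ, hσ⟩ := φ.exists_rightInverse_of_surjective (LinearMap.range_eq_top.2 hφ)
  exact ⟨σ, fun v => LinearMap.congr_fun hσ v⟩

theorem degree_two [Algebra.EssFiniteType k K] (S : GSys k K) (C : Coord k K)
    (P : Ideal (K ⊗[k] K)) [hP : P.IsPrime]
    (h0 : (1 : K) ⊗ₜ[k] C.c 0 - C.c 0 ⊗ₜ[k] (1 : K) ∈ P)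
    (h1 : (1 : K) ⊗ₜ[k] C.c 1 - C.c 1 ⊗ₜ[k] (1 : K) ∈ P)
    (W : Set (K ⊗[k] K)) (hfin : W.Finite) (hW : ∀ w ∈ W, w ∈ S.M K 1) {j : ℕ}
    (hj : ∀ w ∈ W, OrdGE P j w) (hWP : Ideal.span W ≤ P)
    (hmin : ∀ Q : Ideal (K ⊗[k] K), Q.IsPrime → Ideal.span W ≤ Q → Q ≤ P → Q = P) :
    ∃ c, ∀ (N : ℕ) (B Z : Submodule k K) [Module.Finite k B] [Module.Finite k Z],
      (∀ a ∈ S.L (N + c), ∀ b ∈ B, a * b ∈ Z) → (j * N + 1).choose 2 *
        Module.finrank K ((B.baseChange K).map (Ideal.Quotient.mkₐ K P).toLinearMap) ≤ Module.finrank k Z := by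
  obtain ⟨c, hc⟩ := exists_res S P (Ideal.span W) hWP hmin
  refine ⟨c, fun N B Z hBf hZf hBZ => ?_⟩
  have hmem : ∀ {m : ℕ} {a : K ⊗[k] K}, a ∈ S.M K m →
      algebraMap (K ⊗[k] K) (Localization.AtPrime P) a ∈ locM S P m :=
    fun {m a} ha => ⟨a, ha, rfl⟩
  have hmul : ∀ {m n : ℕ} {a b : Localization.AtPrime P}, a ∈ locM S P m → b ∈ locM S P n →
      a * b ∈ locM S P (m + n) := by
    rintro m n _ _ ⟨a, ha, rfl⟩ ⟨b, hb, rfl⟩
    exact ⟨a * b, M_mul S ha hb,
      map_mul (algebraMap (K ⊗[k] K) (Localization.AtPrime P)) a b⟩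
  obtain ⟨s, hs, hs0⟩ := Submodule.exists_mem_ne_zero_of_ne_bot S.ne_bot
  have hu1 : IsUnit ((1 : K) ⊗ₜ[k] s) := by
    refine IsUnit.of_mul_eq_one ((1 : K) ⊗ₜ[k] s⁻¹) ?_
    rw [Algebra.TensorProduct.tmul_mul_tmul, mul_one, mul_inv_cancel₀ hs0]
    rfl
  have hres := res_pow (mm := IsLocalRing.maximalIdeal (Localization.AtPrime P)) (locM S P) hmul
    (algebraMap (K ⊗[k] K) (Localization.AtPrime P) '' W) (hfin.image _)
    (by
      rintro _ ⟨w, hw, rfl⟩
      exact hmem (hW w hw))
    (algebraMap (K ⊗[k] K) (Localization.AtPrime P) ((1 : K) ⊗ₜ[k] s)) (hmem (M_tmul S 1 hs))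
    (hu1.map _) c (by
      rw [← Ideal.map_span]
      exact hc) N
  rw [← Ideal.map_span, ← Ideal.map_pow] at hres
  have hlen := length_ge C P h0 h1 ((Ideal.span W) ^ N) (j * N)
    (fun g hg => ordGE_span_pow hj N hg)
  -- the subspaces
  have hfM : Module.Finite K (B.baseChange K) := bc_finite B
  have hfZ : Module.Finite K (Z.baseChange K) := bc_finite Z
  obtain ⟨Zl, hZl⟩ : ∃ Zl : Submodule K (Localization.AtPrime P), Zl = (Z.baseChange K).map
      (IsScalarTower.toAlgHom K (K ⊗[k] K) (Localization.AtPrime P)).toLinearMap := ⟨_, rfl⟩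
  let φ : B.baseChange K →ₗ[K] ((B.baseChange K).map (Ideal.Quotient.mkₐ K P).toLinearMap) :=
    (Ideal.Quotient.mkₐ K P).toLinearMap.submoduleMap (B.baseChange K)
  have hφ : Function.Surjective φ := LinearMap.submoduleMap_surjective _ _
  obtain ⟨σ, hσ'⟩ := exists_section φ hφ
  have hnotP : ∀ v, v ≠ 0 → ((σ v : B.baseChange K) : K ⊗[k] K) ∉ P := by
    intro v hv hvP
    apply hv
    rw [← hσ' v]
    apply Subtype.ext
    change Ideal.Quotient.mk P ((σ v : B.baseChange K) : K ⊗[k] K) = 0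
    exact Ideal.Quotient.eq_zero_iff_mem.2 hvP
  let ψ : ((B.baseChange K).map (Ideal.Quotient.mkₐ K P).toLinearMap) →ₗ[K] Localization.AtPrime P :=
    (IsScalarTower.toAlgHom K (K ⊗[k] K) (Localization.AtPrime P)).toLinearMap ∘ₗ
      (B.baseChange K).subtype ∘ₗ σ
  have hψ : ∀ v, ψ v = algebraMap (K ⊗[k] K) (Localization.AtPrime P)
      ((σ v : B.baseChange K) : K ⊗[k] K) := fun v => rfl
  have hunit : ∀ v, v ≠ 0 → IsUnit (ψ v) := by
    intro v hv
    rw [hψ]
    exact IsLocalization.map_units (Localization.AtPrime P)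
      (⟨((σ v : B.baseChange K) : K ⊗[k] K), hnotP v hv⟩ : P.primeCompl)
  have hinj : Function.Injective ψ := by
    rw [← LinearMap.ker_eq_bot, LinearMap.ker_eq_bot']
    intro v hv
    by_contra hne
    exact (hunit v hne).ne_zero hv
  have hfI : Module.Finite K ((B.baseChange K).map (Ideal.Quotient.mkₐ K P).toLinearMap) := inferInstance
  have hUd : Module.finrank K (LinearMap.range ψ) =
      Module.finrank K ((B.baseChange K).map (Ideal.Quotient.mkₐ K P).toLinearMap) :=
    LinearMap.finrank_range_of_inj hinj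
  have hfZ' : Module.Finite K Zl := by
    rw [hZl]
    infer_instance
  have hfU : Module.Finite K (LinearMap.range ψ) := inferInstance
  have hkey := res_length (U := LinearMap.range ψ) (Z := Zl) hres
    (by
      rintro _ ⟨v, rfl⟩ hv0
      refine hunit v ?_
      rintro rfl
      exact hv0 (map_zero ψ))
    (by
      rintro _ ⟨v, hv, rfl⟩ _ ⟨a, rfl⟩
      rw [hZl]
      exact ⟨v * ((σ a : B.baseChange K) : K ⊗[k] K), bc_mul hBZ hv (σ a).2,
        map_mul (algebraMap (K ⊗[k] K) (Localization.AtPrime P)) _ _⟩)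
  have hZ : Module.finrank K Zl ≤ Module.finrank k Z := by
    rw [← bc_finrank (X := K) Z, hZl]
    exact Submodule.finrank_map_le _ _
  rw [hUd] at hkey
  have h2 : (((j * N + 1).choose 2 *
      Module.finrank K ((B.baseChange K).map (Ideal.Quotient.mkₐ K P).toLinearMap) : ℕ) : ℕ∞) ≤
      ((Module.finrank k Z : ℕ) : ℕ∞) := by
    calc (((j * N + 1).choose 2 *
          Module.finrank K ((B.baseChange K).map (Ideal.Quotient.mkₐ K P).toLinearMap) : ℕ) : ℕ∞)
        = (Module.finrank K ((B.baseChange K).map (Ideal.Quotient.mkₐ K P).toLinearMap) : ℕ∞) *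
            (((j * N + 1).choose 2 : ℕ) : ℕ∞) := by
          push_cast
          ring
      _ ≤ (Module.finrank K ((B.baseChange K).map (Ideal.Quotient.mkₐ K P).toLinearMap) : ℕ∞) *
            Module.length (Localization.AtPrime P)
            (Localization.AtPrime P ⧸ ((Ideal.span W) ^ N).map
              (algebraMap (K ⊗[k] K) (Localization.AtPrime P))) := mul_le_mul_right hlen _
      _ ≤ ((Module.finrank K Zl : ℕ) : ℕ∞) := hkey
      _ ≤ ((Module.finrank k Z : ℕ) : ℕ∞) := by exact_mod_cast hZ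
  exact_mod_cast h2

end Pool.Agent.H41.ZC
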