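import Pool.Agent.H24.TU.LemS
import Pool.Agent.H41.TQ.Wrk
import Pool.Agent.H41.TQ.Bas
import Pool.Agent.H41.ZC.Deg2

/-!
# [H41 ZC StL] THEOREM Z: the Wronskian step for an arbitrary space `L`

`wr_step`, `ord_step`, `exists_basis` of `H41/TQ` with a subspace `L` instead of `S.L n`.
-/

set_option autoImplicit false

open scoped TensorProduct

namespace Pool.Agent.H41.ZC

open Pool.Agent.H24.TU Pool.Agent.H41.TQ

universe u

variable {k X K Om : Type u} [Field k] [Field X] [Field K] [Field Om] [Algebra k X] [Algebra k K] [Algebra k Om]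

private theorem ordGE_iter {Q : Ideal (X ⊗[k] K)} (D : Derivation k K K) {m : ℕ}
    {g : X ⊗[k] K} (h : OrdGE Q m g) {i : ℕ} (hi : i < m) :
    (fun w => dK X D w)^[i] g ∈ Q := by
  induction i generalizing m g with
  | zero =>
    obtain ⟨m', rfl⟩ : ∃ m', m = m' + 1 := ⟨m - 1, by omega⟩
    exact h.1
  | succ i ih =>
    obtain ⟨m', rfl⟩ : ∃ m', m = m' + 1 := ⟨m - 1, by omega⟩
    rw [Function.iterate_succ_apply]
    exact ih (h.2 D) (by omega)

private theorem iter_tmul (D : Derivation k K K) (x : X) (f : K) (i : ℕ) :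
    (fun w => dK X D w)^[i] (x ⊗ₜ[k] f) = x ⊗ₜ[k] ((fun f => D f)^[i] f) := by
  induction i with
  | zero => rfl
  | succ i ih => rw [Function.iterate_succ_apply', Function.iterate_succ_apply', ih, dK_tmul]

private theorem iter_const (D : Derivation k K K) {u : ℕ} (e φ : Fin u → K)
    (hφ : ∀ l, D (φ l) = 0) (i : ℕ) :
    (fun f => D f)^[i] (∑ l, φ l * e l) = ∑ l, φ l * (fun f => D f)^[i] (e l) := by
  induction i with
  | zero => rfl
  | succ i ih =>
    rw [Function.iterate_succ_apply', ih, map_sum]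
    refine Finset.sum_congr rfl fun l _ => ?_
    rw [Function.iterate_succ_apply', Derivation.leibniz, hφ l, smul_zero, add_zero, smul_eq_mul]

private theorem iter_add (D : Derivation k K K) (g g' : X ⊗[k] K) (i : ℕ) :
    (fun w => dK X D w)^[i] (g + g') =
      (fun w => dK X D w)^[i] g + (fun w => dK X D w)^[i] g' := by
  induction i with
  | zero => rfl
  | succ i ih =>
    rw [Function.iterate_succ_apply', Function.iterate_succ_apply', Function.iterate_succ_apply',
      ih, map_add]

private theorem iter_smul (D : Derivation k K K) (x : X) (g : X ⊗[k] K) (i : ℕ) :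
    (fun w => dK X D w)^[i] (x • g) = x • (fun w => dK X D w)^[i] g := by
  induction i with
  | zero => rfl
  | succ i ih =>
    rw [Function.iterate_succ_apply', Function.iterate_succ_apply', ih, Derivation.map_smul]

private theorem iter_zero (D : Derivation k K K) (i : ℕ) :
    (fun w => dK X D w)^[i] (0 : X ⊗[k] K) = 0 := by
  induction i with
  | zero => rfl
  | succ i ih => rw [Function.iterate_succ_apply', ih, map_zero]

private theorem pt_smul' (a : X →ₐ[k] Om) (y : K →ₐ[k] Om) (x : X) (g : X ⊗[k] K) :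
    pt a y (x • g) = a x * pt a y g := by
  have h1 : x • g = (x ⊗ₜ[k] (1 : K)) * g := by
    rw [Algebra.smul_def]
    rfl
  rw [h1, map_mul, pt_tmul, map_one, mul_one]

private theorem wr_step_L (L : Submodule k K) (D : Derivation k K K) {u : ℕ} (e : Fin u → K)
    (he : ∀ b : Fin u → K, (∀ l, D (b l) = 0) → ∑ l, b l * e l = 0 → b = 0)
    (hS : ∀ f ∈ L, ∃ φ : Fin u → K, (∀ l, D (φ l) = 0) ∧ f = ∑ l, φ l * e l)
    (a : X →ₐ[k] Om) (y z : K →ₐ[k] Om) (hyz : ∀ f : K, D f = 0 → y f = z f)
    {g : X ⊗[k] K} (hg : g ∈ L.baseChange X) (h : OrdGE (ptI a y) u g) : g ∈ ptI a z := by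
  have key : ∃ b : Fin u → Om,
      (∀ i, pt a y ((fun w => dK X D w)^[i] g) = ∑ l, b l * y ((fun f => D f)^[i] (e l))) ∧
      pt a z g = ∑ l, b l * z (e l) := by
    rw [Submodule.baseChange_eq_span] at hg
    clear h
    induction hg using Submodule.span_induction with
    | mem g hg =>
      obtain ⟨f, hf, rfl⟩ := hg
      obtain ⟨φ, hφ, rfl⟩ := hS f hf
      refine ⟨fun l => y (φ l), fun i => ?_, ?_⟩
      · have h1 : (TensorProduct.mk k X K 1) (∑ l, φ l * e l) =
          (1 : X) ⊗ₜ[k] (∑ l, φ l * e l) := rfl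
        rw [h1, iter_tmul, pt_tmul, map_one, one_mul, iter_const D e φ hφ, map_sum]
        exact Finset.sum_congr rfl fun l _ => map_mul y _ _
      · have h1 : (TensorProduct.mk k X K 1) (∑ l, φ l * e l) =
          (1 : X) ⊗ₜ[k] (∑ l, φ l * e l) := rfl
        rw [h1, pt_tmul, map_one, one_mul, map_sum]
        refine Finset.sum_congr rfl fun l _ => ?_
        rw [map_mul, ← hyz _ (hφ l)]
    | zero =>
      refine ⟨0, fun i => ?_, ?_⟩
      · rw [iter_zero, map_zero]
        simp
      · rw [map_zero]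
        simp
    | add g g' _ _ h1 h2 =>
      obtain ⟨b, hb1, hb2⟩ := h1
      obtain ⟨b', hb1', hb2'⟩ := h2
      refine ⟨b + b', fun i => ?_, ?_⟩
      · rw [iter_add, map_add, hb1, hb1', ← Finset.sum_add_distrib]
        exact Finset.sum_congr rfl fun l _ => (add_mul _ _ _).symm
      · rw [map_add, hb2, hb2', ← Finset.sum_add_distrib]
        exact Finset.sum_congr rfl fun l _ => (add_mul _ _ _).symm
    | smul x g _ h1 =>
      obtain ⟨b, hb1, hb2⟩ := h1
      refine ⟨fun l => a x * b l, fun i => ?_, ?_⟩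
      · rw [iter_smul, pt_smul', hb1, Finset.mul_sum]
        exact Finset.sum_congr rfl fun l _ => (mul_assoc _ _ _).symm
      · rw [pt_smul', hb2, Finset.mul_sum]
        exact Finset.sum_congr rfl fun l _ => (mul_assoc _ _ _).symm
  obtain ⟨b, hb1, hb2⟩ := key
  have hb : b = 0 := by
    refine wrk_inj D e he (y : K →+* Om) b fun j hj => ?_
    have h1 := hb1 j
    rw [mem_ptI.1 (ordGE_iter D h hj)] at h1
    exact h1.symm
  rw [mem_ptI, hb2, hb]
  simp


private theorem dX_smul' (θ : Derivation k X X) (c : X) (x : X ⊗[k] K) :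
    dX K θ (c • x) = c • dX K θ x + θ c • x := by
  induction x using TensorProduct.induction_on with
  | zero => simp
  | add a b ha hb =>
    rw [smul_add, map_add, ha, hb, map_add, smul_add, smul_add]
    abel
  | tmul y f =>
    rw [TensorProduct.smul_tmul', dX_tmul, dX_tmul, TensorProduct.smul_tmul',
      TensorProduct.smul_tmul', smul_eq_mul, smul_eq_mul, smul_eq_mul, Derivation.leibniz,
      smul_eq_mul, smul_eq_mul, TensorProduct.add_tmul, mul_comm (θ c) y]

theorem bc_dX (L : Submodule k K) {a : X ⊗[k] K} (ha : a ∈ L.baseChange X)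
    (θ : Derivation k X X) : dX K θ a ∈ L.baseChange X := by
  rw [bc_span] at ha
  induction ha using Submodule.span_induction with
  | mem a ha =>
    obtain ⟨f, hf, rfl⟩ := ha
    change dX K θ ((1 : X) ⊗ₜ[k] f) ∈ _
    rw [dX_tmul]
    exact Submodule.tmul_mem_baseChange_of_mem _ hf
  | zero =>
    rw [map_zero]
    exact zero_mem _
  | add x y _ _ hx hy =>
    rw [map_add]
    exact add_mem hx hy
  | smul c x hx0 hx =>
    rw [dX_smul']
    refine add_mem (Submodule.smul_mem _ _ hx) (Submodule.smul_mem _ _ ?_)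
    rw [bc_span]
    exact hx0

theorem ord_step_L [CharZero k] [Algebra.EssFiniteType k X] [Algebra.EssFiniteType k K] (L : Submodule k K)
    (D : Derivation k K K) {u : ℕ} (e : Fin u → K)
    (he : ∀ b : Fin u → K, (∀ l, D (b l) = 0) → ∑ l, b l * e l = 0 → b = 0)
    (hS : ∀ f ∈ L, ∃ φ : Fin u → K, (∀ l, D (φ l) = 0) ∧ f = ∑ l, φ l * e l)
    (a : X →ₐ[k] Om) (y z : K →ₐ[k] Om) (hyz : ∀ f : K, D f = 0 → y f = z f)
    (r : ℕ) {g : X ⊗[k] K} (hg : g ∈ L.baseChange X) (h : OrdGE (ptI a y) (r + u) g) :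
    OrdGE (ptI a z) (r + 1) g := by
  have key : ∀ (r : ℕ) (g : X ⊗[k] K), g ∈ L.baseChange X → OrdGE (ptI a y) (r + u) g →
      SmGE (ptI a z) (r + 1) g := by
    intro r
    induction r with
    | zero =>
      intro g hg h
      exact ⟨wr_step_L L D e he hS a y z hyz hg (OrdGE_mono (by omega) h), fun _ => trivial⟩
    | succ r ih =>
      intro g hg h
      refine ⟨wr_step_L L D e he hS a y z hyz hg (OrdGE_mono (by omega) h), fun θ => ?_⟩
      refine ih _ (bc_dX L hg θ) (ordGE_dX inferInstance (r + u) ?_ θ)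
      rwa [show r + u + 1 = r + 1 + u by omega]
  exact ordGE_of_smGE inferInstance (r + 1) (key r g hg h)

theorem exists_basis_L {k K : Type u} [Field k] [Field K] [Algebra k K] (F : IntermediateField k K) (D : Derivation F K K) (hD : ∀ c : K, D c = 0 ↔ c ∈ F) (S : Submodule k K)
    (hfinS : FiniteDimensional k S) : ∃ e : Fin (Module.finrank F (Submodule.span F (S : Set K))) → K,
      (∀ b : Fin (Module.finrank F (Submodule.span F (S : Set K))) → K,
        (∀ l, D (b l) = 0) → ∑ l, b l * e l = 0 → b = 0) ∧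
      ∀ f ∈ Submodule.span F (S : Set K),
        ∃ φ : Fin (Module.finrank F (Submodule.span F (S : Set K))) → K,
          (∀ l, D (φ l) = 0) ∧ f = ∑ l, φ l * e l := by
  have hfin : Module.Finite F (Submodule.span F (S : Set K)) := by
    have := hfinS
    obtain ⟨s, hs⟩ := (Submodule.fg_iff_finiteDimensional S).2 this
    have h1 : Submodule.span F (S : Set K) = Submodule.span F (s : Set K) := by
      apply le_antisymm
      · rw [Submodule.span_le, ← hs]
        exact Submodule.span_le_restrictScalars k F (s : Set K)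
      · refine Submodule.span_mono fun x hx => ?_
        rw [← hs]
        exact Submodule.subset_span hx
    rw [h1]
    exact FiniteDimensional.span_of_finite F s.finite_toSet
  obtain ⟨B, hB⟩ : ∃ B : Module.Basis (Fin (Module.finrank F (Submodule.span F (S : Set K)))) F
      (Submodule.span F (S : Set K)), B = Module.finBasis F _ := ⟨_, rfl⟩
  refine ⟨fun l => (B l : K), fun b hb h0 => ?_, fun f hf => ?_⟩
  · obtain ⟨b', hb'⟩ : ∃ b' : Fin (Module.finrank F (Submodule.span F (S : Set K))) → F,
        ∀ l, (b' l : K) = b l := ⟨fun l => ⟨b l, (hD _).1 (hb l)⟩, fun l => rfl⟩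
    have h1 : ∑ l, b' l • B l = 0 := by
      apply Subtype.ext
      rw [Submodule.coe_sum, Submodule.coe_zero, ← h0]
      refine Finset.sum_congr rfl fun l _ => ?_
      rw [Submodule.coe_smul, ← hb']
      rfl
    have h2 := Fintype.linearIndependent_iff.1 B.linearIndependent b' h1
    funext l
    rw [← hb', h2]
    rfl
  · refine ⟨fun l => (B.repr ⟨f, hf⟩ l : K), fun l => (hD _).2 (B.repr ⟨f, hf⟩ l).2, ?_⟩
    have h1 := congrArg (fun x : Submodule.span F (S : Set K) => (x : K)) (B.sum_repr ⟨f, hf⟩)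
    simp only [Submodule.coe_sum] at h1
    refine h1.symm.trans (Finset.sum_congr rfl fun l _ => ?_)
    rw [Submodule.coe_smul]
    rfl

end Pool.Agent.H41.ZC
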