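import Pool.Agent.H24.TU.Coo
import Pool.Agent.H41.TQ.GenA
import Pool.Agent.H41.TQ.Exo
import Pool.Agent.H41.TQ.Dom
import Pool.Agent.H41.TQ.Fne
import Pool.Agent.H41.TQ.Cst
import Pool.Agent.H41.ZC.StL

/-!
# [H41 ZC ChS] THEOREM Z, chapter CHAIN

`F ≠ F'` algebraically closed in `K`, `trdeg_F K = trdeg_F' K = 1`, `u = dim_F (F L)`, `u' = dim_F' (F' L)`,
`(u + u' + 3).choose 3 < dim L`.  Then a hypersurface prime contains all elements of `K ⊗ L` of order at least `u + u' + 1` at the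
diagonal: the point `(x, z2)`, where `x` and `w` agree on `F`, `w` and `z2` agree on `F'`.
-/

set_option autoImplicit false

open scoped TensorProduct

namespace Pool.Agent.H41.ZC

open Pool.Agent.H24.TU Pool.Agent.H41.TQ

universe u

private theorem chs_pt {k K κ κ' : Type u} [Field k] [Field K] [Field κ] [Field κ'] [Algebra k K] [Algebra k κ] [Algebra k κ']
    (a z : K →ₐ[k] κ) (j : κ →ₐ[k] κ') (g : K ⊗[k] K) : pt (j.comp a) (j.comp z) g = j (pt a z g) := by
  induction g using TensorProduct.induction_on with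
  | zero => simp
  | add x y hx hy => simp only [map_add, hx, hy]
  | tmul x f => simp

private theorem chs_pt' {k K κ κ' : Type u} [Field k] [Field K] [Field κ] [Field κ'] [Algebra k K] [Algebra k κ] [Algebra k κ']
    (a : K →ₐ[k] κ) (j : κ →ₐ[k] κ') (z : K →ₐ[k] κ') (g : K ⊗[k] K) : pt (j.comp a) z g = pt j z (chg K a g) := by
  induction g using TensorProduct.induction_on with
  | zero => simp
  | add x y hx hy => simp only [map_add, hx, hy]
  | tmul x f => simp

/-- the diagonal, for an arbitrary embedding -/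
theorem dI_eq {k K κ : Type u} [Field k] [Field K] [Field κ] [Algebra k K] [Algebra k κ] (x : K →ₐ[k] κ) :
    dI k K = ptI x x := by
  ext g
  unfold dI
  rw [mem_ptI, mem_ptI]
  have h1 := chs_pt (AlgHom.id k K) (AlgHom.id k K) x g
  rw [AlgHom.comp_id] at h1
  rw [h1]
  exact (map_eq_zero x).symm

theorem chain_srf {k K : Type u} [Field k] [CharZero k] [IsAlgClosed k] [Field K] [Algebra k K]
    [Algebra.EssFiniteType k K] (htr : Algebra.trdeg k K = 3) (L : Submodule k K)
    (hL : FiniteDimensional k L) (F F' : IntermediateField k K)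
    (hF : Algebra.trdeg F K = 1) (hF' : Algebra.trdeg F' K = 1)
    (hc : ∀ f : K, IsAlgebraic F f → f ∈ F) (hc' : ∀ f : K, IsAlgebraic F' f → f ∈ F') (hne : F ≠ F') (u u' : ℕ)
    (hu : Module.finrank F (Submodule.span F (L : Set K)) ≤ u)
    (hu' : Module.finrank F' (Submodule.span F' (L : Set K)) ≤ u')
    (hn : (u + u' + 3).choose 3 < Module.finrank k L) :
    Srf k K L (u + u' + 1) := by
  classical
  obtain ⟨C⟩ := exists_coord (k := k) (K := K) htr
  obtain ⟨κ1, _, _, j1, z1, h1F, h1I, h1t⟩ := exists_gen F (AlgHom.id k K)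
  obtain ⟨κ2, _, _, j2, z2, h2F, h2I, h2t⟩ := exists_gen F' z1
  obtain ⟨x, hx⟩ : ∃ x : K →ₐ[k] κ2, x = j2.comp j1 := ⟨_, rfl⟩
  obtain ⟨w, hw⟩ : ∃ w : K →ₐ[k] κ2, w = j2.comp z1 := ⟨_, rfl⟩
  have hxa : ∀ f, x f = j2 (j1 f) := fun f => by rw [hx]; rfl
  have hwa : ∀ f, w f = j2 (z1 f) := fun f => by rw [hw]; rfl
  have h01 : ∀ f ∈ F, x f = w f := fun f hf => by
    rw [hxa, hwa, h1F f hf]
    rfl
  have h12 : ∀ f ∈ F', w f = z2 f := fun f hf => by rw [hwa, h2F f hf]
  -- transcendental elements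
  have ht : ∀ f : K, f ∉ F → x f ≠ w f := fun f hf h => by
    rw [hxa, hwa] at h
    exact h1t f (fun ha => hf (hc f ha)) f (j2.toRingHom.injective h).symm
  have ht' : ∀ f : K, f ∉ F' → z2 f ≠ w f := fun f hf h => by
    rw [hwa] at h
    exact h2t f (fun ha => hf (hc' f ha)) (z1 f) h
  -- the primes
  have hPI : ptI x w ≤ dI k K := by
    intro g hg
    rw [mem_ptI, hx, hw, chs_pt, map_eq_zero] at hg
    exact h1I (mem_ptI.2 hg)
  have hQP : ptI x z2 ≤ ptI x w := by
    intro g hg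
    rw [mem_ptI, hx, chs_pt'] at hg
    have h1 := h2I (mem_ptI.2 hg)
    rw [mem_ptI] at h1 ⊢
    rw [hx, hw, chs_pt]
    have h2 := chs_pt' j1 (AlgHom.id k κ1) z1 g
    rw [← h2, AlgHom.id_comp] at h1
    rw [h1, map_zero]
  have hdiag : ∀ f : K, (1 : K) ⊗ₜ[k] f - f ⊗ₜ[k] (1 : K) ∈ dI k K := fun f => by
    unfold dI
    rw [mem_ptI, map_sub, pt_tmul, pt_tmul]
    simp
  have hmem : ∀ (a z : K →ₐ[k] κ2) (f : K), (1 : K) ⊗ₜ[k] f - f ⊗ₜ[k] (1 : K) ∈ ptI a z ↔ a f = z f := by
    intro a z f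
    rw [mem_ptI, map_sub, pt_tmul, pt_tmul, map_one, map_one, one_mul, mul_one, sub_eq_zero]
    exact eq_comm
  have hPI' : ptI x w < dI k K := by
    refine lt_of_le_of_ne hPI fun h => ?_
    obtain ⟨f, -, hf⟩ := exists_not_mem F' F hF' hF hc' hne.symm
    have h1 := hdiag f
    rw [← h, hmem] at h1
    exact ht f hf h1
  have hQP' : ptI x z2 < ptI x w := by
    refine lt_of_le_of_ne hQP fun h => ?_
    obtain ⟨f, hf, hf'⟩ := exists_not_mem F F' hF hF' hc hne
    have h1 := (hmem x w f).2 (h01 f hf)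
    rw [← h, hmem] at h1
    exact ht' f hf' (by rw [← h1, h01 f hf])
  -- the loss
  obtain ⟨D, hD⟩ := exists_der F hF hc
  obtain ⟨D', hD'⟩ := exists_der F' hF' hc'
  have hl : ∀ f ∈ L.baseChange K, OrdGE (dI k K) (u + u' + 1) f → f ∈ ptI x z2 := by
    intro f hf hr
    obtain ⟨e, he, hS⟩ := exists_basis_L F D hD L hL
    obtain ⟨e', he', hS'⟩ := exists_basis_L F' D' hD' L hL
    rw [dI_eq x] at hr
    have h1 : OrdGE (ptI x w) (u' + 2) f := by
      refine ord_step_L L (D.restrictScalars k) e he (fun f hf => hS f (Submodule.subset_span hf)) x x w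
        (fun f hf => h01 f ((hD f).1 hf)) (u' + 1) hf ?_
      exact OrdGE_mono (by omega) hr
    have h2 : OrdGE (ptI x z2) (1 + 1) f := by
      refine ord_step_L L (D'.restrictScalars k) e' he' (fun f hf => hS' f (Submodule.subset_span hf)) x w z2
        (fun f hf => h12 f ((hD' f).1 hf)) 1 hf ?_
      exact OrdGE_mono (by omega) h1
    exact h2.1
  -- an element of high order
  obtain ⟨g, hg, hg0, hgs⟩ := exists_ord C (L.baseChange K) (u + u' + 1) (by
    rw [bc_finrank]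
    exact hn)
  have hgQ : g ∈ ptI x z2 := hl g hg hgs
  have hQ0 : ptI x z2 ≠ ⊥ := fun h => hg0 (by
    rw [h] at hgQ
    exact (Submodule.mem_bot _).1 hgQ)
  obtain ⟨htrQ, -⟩ := trdeg_two htr C inferInstance inferInstance hQP' hPI' hQ0
  exact ⟨ptI x z2, inferInstance, hQ0, htrQ, hl⟩

end Pool.Agent.H41.ZC
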