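import Pool.Agent.H24.TU.Coo
import Pool.Agent.H41.TQ.Exo
import Pool.Agent.H41.TQ.Dom
import Pool.Agent.H41.TQ.Fne
import Pool.Agent.H41.TQ.Cst
import Pool.Agent.H41.TQ.Tdg
import Pool.Agent.H41.ZC.Deg2
import Pool.Agent.H41.ZC.Clo
import Pool.Agent.H41.ZC.ChS

/-!
# [H41 ZC EndS] THEOREM Z, chapter END

`F` the field of a transitive prime `P`, `trdeg_F K = 1`, `u = dim_F (F L_1)`, `M` any number with `(M + u + 2).choose 3 < dim L_1`.
Either a hypersurface prime contains all elements of `K ⊗ L_1` of order at least `M + u` at the diagonal, or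
`(M N + 1).choose 2 * dim_F (F B) ≤ dim Z` for all `N`, `B`, `Z` with `L_(N + c) B ⊆ Z`.
-/

set_option autoImplicit false

open scoped TensorProduct

namespace Pool.Agent.H41.ZC

open Pool.Agent.H24.TU Pool.Agent.H41.TQ

universe u

theorem finrank_span_le' {k K κ : Type u} [Field k] [Field K] [Field κ] [Algebra k K] [Algebra k κ]
    (x y : K →ₐ[k] κ) (hle : (ptI x y).map (chg K x) ≤ (ptI x y).map (chg K y)) (hPI : ptI x y ≤ dI k K)
    (B : Submodule k K) [Module.Finite k B] :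
    Module.finrank (eqF x y) (Submodule.span (eqF x y) (B : Set K)) ≤
      Module.finrank K ((B.baseChange K).map (Ideal.Quotient.mkₐ K (ptI x y)).toLinearMap) := by
  classical
  obtain ⟨b, hb, hsp, hli⟩ := exists_linearIndependent (eqF x y) (B : Set K)
  have := bc_finite (X := K) B
  have h1 : LinearIndependent K (fun i : b => Ideal.Quotient.mk (ptI x y) ((1 : K) ⊗ₜ[k] (i : K))) := by
    rw [linearIndependent_iff_finset_linearIndependent]
    intro s
    exact linIndep_quot x y hle hPI (fun i : s => ((i : b) : K)) (hli.comp _ Subtype.val_injective)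
  have hmem : ∀ i : b, Ideal.Quotient.mk (ptI x y) ((1 : K) ⊗ₜ[k] (i : K)) ∈
      (B.baseChange K).map (Ideal.Quotient.mkₐ K (ptI x y)).toLinearMap := by
    intro i
    exact ⟨(1 : K) ⊗ₜ[k] (i : K), Submodule.tmul_mem_baseChange_of_mem _ (hb i.2), rfl⟩
  let g : b → (B.baseChange K).map (Ideal.Quotient.mkₐ K (ptI x y)).toLinearMap := fun i => ⟨_, hmem i⟩
  have hg : LinearIndependent K g := LinearIndependent.of_comp
    ((B.baseChange K).map (Ideal.Quotient.mkₐ K (ptI x y)).toLinearMap).subtype h1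
  have : Module.Finite K ((B.baseChange K).map (Ideal.Quotient.mkₐ K (ptI x y)).toLinearMap) :=
    Module.Finite.map _ _
  have : Finite b := hg.finite
  have : Fintype b := Fintype.ofFinite b
  have h2 := hg.fintype_card_le_finrank
  rw [← hsp]
  have h3 := finrank_span_eq_card hli
  rw [Subtype.range_coe] at h3
  rw [h3]
  exact h2

theorem end_srf {k K : Type u} [Field k] [CharZero k] [IsAlgClosed k] [Field K] [Algebra k K]
    [Algebra.EssFiniteType k K] (htr : Algebra.trdeg k K = 3) (S : GSys k K) (F : IntermediateField k K) (hPF : IsPF F)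
    (hF : Algebra.trdeg F K = 1) (M u : ℕ) (hu : Module.finrank F (Submodule.span F (S.L 1 : Set K)) ≤ u)
    (hM : (M + u + 2).choose 3 < Module.finrank k (S.L 1)) :
    Srf k K (S.L 1) (M + u) ∨ ∃ c, ∀ (N : ℕ) (B Z : Submodule k K) [Module.Finite k B] [Module.Finite k Z],
      (∀ a ∈ S.L (N + c), ∀ b ∈ B, a * b ∈ Z) →
        (M * N + 1).choose 2 * Module.finrank F (Submodule.span F (B : Set K)) ≤ Module.finrank k Z := by
  classical
  rcases Nat.eq_zero_or_pos M with hM0 | hM0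
  · right
    refine ⟨0, fun N B Z _ _ _ => ?_⟩
    rw [hM0, Nat.zero_mul, Nat.choose_eq_zero_of_lt (by norm_num), Nat.zero_mul]
    exact Nat.zero_le _
  have hcl := hPF.closed
  obtain ⟨κ, _, _, x, y, hxy, hPI, hle⟩ := hPF
  obtain ⟨P, hP⟩ : ∃ P : Ideal (K ⊗[k] K), P = ptI x y := ⟨_, rfl⟩
  have hPp : P.IsPrime := by rw [hP]; infer_instance
  have hxF : ∀ f ∈ F, x f = y f := fun f hf => by
    rw [← hxy] at hf
    exact hf
  have htrP : Algebra.trdeg K ((K ⊗[k] K) ⧸ P) = 1 := by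
    have h1 := trdeg_eqF' x y hle hPI
    rw [hxy, hF] at h1
    rw [hP, ← h1]
  have hPI' : P < dI k K := by
    refine lt_of_le_of_ne (hP ▸ hPI) fun h => ?_
    rw [h, trdeg_dI] at htrP
    exact zero_ne_one htrP
  obtain ⟨C, hC0, hC1⟩ := exists_coord_adapted htr F hF
  have hp : ∀ f ∈ F, (1 : K) ⊗ₜ[k] f - f ⊗ₜ[k] (1 : K) ∈ P := by
    intro f hf
    rw [hP]
    exact mem_ptI_eqF x y (hxF f hf)
  -- the elements of order at least `M`
  obtain ⟨V, hV⟩ : ∃ V : Submodule K (K ⊗[k] K), V = S.M K 1 ⊓ (ordIdeal P M).restrictScalars K := ⟨_, rfl⟩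
  have hVmem : ∀ g, g ∈ V ↔ g ∈ S.M K 1 ∧ OrdGE P M g := by
    intro g
    rw [hV]
    exact Iff.rfl
  have hMf := M_finite (X := K) S 1
  have hVf : Module.Finite K V := by
    have h1 : V ≤ S.M K 1 := fun g hg => ((hVmem g).1 hg).1
    exact Submodule.finiteDimensional_of_le h1
  obtain ⟨W, hW⟩ := Module.Finite.iff_fg.1 hVf
  have hWV : ∀ w ∈ (W : Set (K ⊗[k] K)), w ∈ V := fun w hw => by
    rw [← hW]
    exact Submodule.subset_span hw
  have hVW : ∀ g ∈ V, g ∈ Ideal.span (W : Set (K ⊗[k] K)) := by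
    intro g hg
    rw [← hW] at hg
    exact Submodule.span_le_restrictScalars K (K ⊗[k] K) (W : Set (K ⊗[k] K)) hg
  have hWP : Ideal.span (W : Set (K ⊗[k] K)) ≤ P := by
    rw [Ideal.span_le]
    intro w hw
    have h1 := ((hVmem w).1 (hWV w hw)).2
    have h2 : OrdGE P 1 w := OrdGE_mono (by omega) h1
    exact h2.1
  by_cases hmin : ∀ Q : Ideal (K ⊗[k] K), Q.IsPrime → Ideal.span (W : Set (K ⊗[k] K)) ≤ Q → Q ≤ P → Q = P
  · right
    obtain ⟨c, hc⟩ := degree_two S C P (hp _ hC0) (hp _ hC1) W W.finite_toSet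
      (fun w hw => ((hVmem w).1 (hWV w hw)).1) (j := M) (fun w hw => ((hVmem w).1 (hWV w hw)).2) hWP hmin
    refine ⟨c, fun N B Z _ _ hBZ => ?_⟩
    have h1 := hc N B Z hBZ
    refine le_trans (Nat.mul_le_mul_left _ ?_) h1
    have h2 := finrank_span_le' x y hle hPI B
    rw [hxy, ← hP] at h2
    exact h2
  · left
    push Not at hmin
    obtain ⟨Q, hQ, hWQ, hQP, hne⟩ := hmin
    obtain ⟨D, hD⟩ := exists_der F hF hcl
    obtain ⟨e, he, hS⟩ := exists_basis_L F D hD (S.L 1) (S.fin 1)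
    have hl : ∀ g ∈ S.M K 1, OrdGE (dI k K) (M + u) g → g ∈ Q := by
      intro g hg hgo
      apply hWQ
      apply hVW
      rw [hVmem]
      refine ⟨hg, ?_⟩
      rw [dI_eq x] at hgo
      have h1 : OrdGE (ptI x y) (M + 1) g := by
        refine ord_step_L (S.L 1) (D.restrictScalars k) e he (fun f hf => hS f (Submodule.subset_span hf)) x x y
          (fun f hf => hxF f ((hD f).1 hf)) M hg ?_
        exact OrdGE_mono (by omega) hgo
      rw [← hP] at h1
      exact OrdGE_mono (by omega) h1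
    obtain ⟨g, hg, hg0, hgs⟩ := exists_ord C (S.M K 1) (M + u) (by
      rw [finrank_M]
      exact hM)
    have hQ0 : Q ≠ ⊥ := fun h => hg0 (by
      have h1 := hl g hg hgs
      rw [h] at h1
      exact (Submodule.mem_bot _).1 h1)
    obtain ⟨htrQ, -⟩ := trdeg_two htr C hQ hPp (lt_of_le_of_ne hQP hne) hPI' hQ0
    exact ⟨Q, hQ, hQ0, htrQ, hl⟩

end Pool.Agent.H41.ZC
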