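import Pool.Agent.H41.ZC.Gsy
import Pool.Agent.H41.ZC.EndS

/-!
# [H41 ZC EndQ] THEOREM Z, chapter END: the bound for one `q`

`D`, `A` divisors, `A' = prin s * A ^ m` ample and effective, `w > vol (a D + b A)`.  If for the graded system `L_n` of `D + A' / q` and all
`N`, `B`, `Z` with `L_(N + c) B ⊆ Z` one has `(M N + 1).choose 2 * dim_F (F B) ≤ dim Z` then
`M ^ 2 / 2 * a ^ 2 * ((b q - m a) R_F (A) - 1) ≤ w q`.
-/

set_option autoImplicit false

open scoped TensorProduct

namespace Pool.Agent.H41.ZC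

open Pool.Agent.H54.RV Pool.Agent.H83.TU Pool.Agent.H24.TU Pool.Agent.H39.TU Pool.Agent.H20.TU

variable {k K : Type} [Field k] [Field K] [Algebra k K] {X : Mod k K}

private theorem choose_ge (x : ℕ) : (x : ℝ) ^ 2 / 2 ≤ ((x + 1).choose 2 : ℝ) := by
  have h1 : (((x + 1).choose 2 : ℕ) : ℝ) = (x + 1) * x / 2 := by
    rw [Nat.choose_two_right]
    have hdv : 2 ∣ (x + 1) * (x + 1 - 1) := (Nat.even_mul_pred_self (x + 1)).two_dvd
    rw [Nat.cast_div hdv (by norm_num), Nat.add_sub_cancel]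
    push_cast
    ring
  rw [h1]
  have h2 : (0 : ℝ) ≤ x := Nat.cast_nonneg x
  nlinarith

/-- `R_F (A) > γ` gives many elements of `F L (n A)` for infinitely many `n` -/
theorem freq_rf [CharZero k] (h : Hyp X) (A : Cart X) (hA : Ample A) (F : IntermediateField k K)
    (hF : Algebra.trdeg F K = 1) (γ : ℕ) (hγ : (γ : ℤ) < RF h.var h.gen F A) :
    ∃ᶠ n : ℕ in Filter.atTop, γ * n < Module.finrank F (Submodule.span F (secL A n : Set K)) := by
  rw [Filter.frequently_atTop]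
  intro n₀
  by_contra hcon
  push Not at hcon
  have h1 := rf_le h (gf h.var h.gen h.tr) (un_all h.var) (uf_all h.var) A hA F hF γ n₀ hcon
  exact absurd hγ (not_lt.2 h1)

/-- the product space, after division by `t` -/
private noncomputable def ZZ (V : Submodule k K) (t : K) : Submodule k K := V.comap (LinearMap.mulLeft k t)

private theorem zz_mem (V : Submodule k K) (t z : K) : z ∈ ZZ V t ↔ t * z ∈ V := Iff.rfl

private theorem zz_fin (V : Submodule k K) (hV : Module.Finite k V) (t : K) (ht : t ≠ 0) :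
    Module.Finite k (ZZ V t) ∧ Module.finrank k (ZZ V t) ≤ Module.finrank k V := by
  let φ : ZZ V t →ₗ[k] V := LinearMap.codRestrict V ((LinearMap.mulLeft k t).comp (ZZ V t).subtype) fun z => z.2
  have hφ : Function.Injective φ := by
    rw [← LinearMap.ker_eq_bot, LinearMap.ker_eq_bot']
    intro z hz
    have h2 := congrArg Subtype.val hz
    have h3 : t * (z : K) = 0 := h2
    rcases mul_eq_zero.1 h3 with h4 | h4
    · exact absurd h4 ht
    · exact Subtype.ext h4
  exact ⟨Module.Finite.of_injective φ hφ, LinearMap.finrank_le_finrank_of_injective hφ⟩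

theorem end_q [CharZero k] (h : Hyp X) (D A : Cart X) (hD : 0 < h0 D 1) (hA : Ample A) (m : ℕ) (s : K) (hs : s ≠ 0)
    (hE' : Effective (prin X s hs * A ^ m)) (hA' : Ample (prin X s hs * A ^ m)) (q : ℕ) (hq : 2 ≤ q)
    (F : IntermediateField k K) (hF : Algebra.trdeg F K = 1) (M c : ℕ)
    (hc : ∀ (N : ℕ) (B Z : Submodule k K) [Module.Finite k B] [Module.Finite k Z],
      (∀ a ∈ (gsys h D _ hD hA' hE' q hq).L (N + c), ∀ b ∈ B, a * b ∈ Z) →
        (M * N + 1).choose 2 * Module.finrank F (Submodule.span F (B : Set K)) ≤ Module.finrank k Z)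
    (a b : ℕ) (ha : 1 ≤ a) (hab : m * a < b * q) (w : ℝ) (hw : vol (D ^ a * A ^ b) < w) :
    (M : ℝ) ^ 2 / 2 * a ^ 2 * ((b * q - m * a) * RF h.var h.gen F A - 1) ≤ w * q := by
  have hGF := gf h.var h.gen h.tr
  obtain ⟨b', hb'⟩ : ∃ b', b' = b * q - m * a := ⟨_, rfl⟩
  have hb1 : 1 ≤ b' := by omega
  have hbb : m * a + b' = b * q := by omega
  have hr := rf_ample h.var h.gen (uf_all h.var) F hF A hA
  have hRb : RF h.var h.gen F (A ^ b') = b' * RF h.var h.gen F A := rf_pow h.var h.gen F hF A b'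
  obtain ⟨γ, hγ⟩ : ∃ γ : ℕ, (γ : ℤ) = b' * RF h.var h.gen F A - 1 := by
    refine ⟨(b' * RF h.var h.gen F A - 1).toNat, Int.toNat_of_nonneg ?_⟩
    have h1 : (0 : ℤ) < b' * RF h.var h.gen F A := mul_pos (by exact_mod_cast hb1) hr
    omega
  have hfr := freq_rf h (A ^ b') (ample_pow A b' hb1 hA) F hF γ (by rw [hRb]; omega)
  -- the product spaces
  have hprod : ∀ n : ℕ, c ≤ n → (M * (a * (q * n) - c) + 1).choose 2 *
      Module.finrank F (Submodule.span F (secL (A ^ b') n : Set K)) ≤ h0 (D ^ a * A ^ b) (q * n) := by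
    intro n hn
    have hcn : c ≤ a * (q * n) := by
      have h1 : n ≤ q * n := Nat.le_mul_of_pos_left n (by omega)
      have h2 : q * n ≤ a * (q * n) := Nat.le_mul_of_pos_left _ (by omega)
      omega
    have hfB : Module.Finite k (secL (A ^ b') n) := hGF.1 _ _
    have hfV : Module.Finite k (secL (D ^ a * A ^ b) (q * n)) := hGF.1 _ _
    obtain ⟨hfZ, hZle⟩ := zz_fin (secL (D ^ a * A ^ b) (q * n)) hfV (s ^ (a * n)) (pow_ne_zero _ hs)
    refine le_trans (hc (a * (q * n) - c) (secL (A ^ b') n) (ZZ (secL (D ^ a * A ^ b) (q * n)) (s ^ (a * n))) ?_) hZle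
    intro f hf g hg
    rw [Nat.sub_add_cancel hcn, gsys_L] at hf
    have hdiv : a * (q * n) / q = a * n := by
      rw [show a * (q * n) = q * (a * n) by ring, Nat.mul_div_cancel_left _ (by omega)]
    rw [hdiv] at hf
    rw [zz_mem]
    intro x
    have h1 := (X.O x).mul_mem (hf x) (hg x)
    rw [mul_eq, pow_eq, pow_eq, mul_eq, pow_eq, pow_eq] at h1
    rw [mul_eq, pow_eq, pow_eq]
    have h2 : (prin X s hs).eq x = s := rfl
    rw [h2] at h1
    have h3 : s ^ (a * n) * (f * g) * (D.eq x ^ a * A.eq x ^ b) ^ (q * n) =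
        f * (D.eq x ^ (a * (q * n)) * (s * A.eq x ^ m) ^ (a * n)) ^ 1 * (g * (A.eq x ^ b') ^ n) := by
      have h4 : (A.eq x ^ b) ^ (q * n) = (A.eq x ^ m) ^ (a * n) * (A.eq x ^ b') ^ n := by
        rw [← pow_mul, ← pow_mul, ← pow_mul, ← pow_add]
        congr 1
        calc b * (q * n) = (b * q) * n := by ring
          _ = (m * a + b') * n := by rw [hbb]
          _ = m * (a * n) + b' * n := by ring
      rw [mul_pow, mul_pow, h4, ← pow_mul]
      ring
    rw [h3]
    exact h1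
  -- the limit
  obtain ⟨n₀, hn₀⟩ := Filter.eventually_atTop.1 (vol_ev hGF (D ^ a * A ^ b) w hw)
  have hq0 : (0 : ℝ) < q := by
    have : 0 < q := by omega
    exact_mod_cast this
  have hfin : ∃ᶠ n : ℕ in Filter.atTop, (M : ℝ) ^ 2 / 2 * (a * q - (c : ℝ) / n) ^ 2 * γ ≤ w * q ^ 3 := by
    refine (hfr.and_eventually (Filter.eventually_ge_atTop (max (max c n₀) 1))).mono ?_
    rintro n ⟨h1, h2⟩
    have hcn : c ≤ n := (le_max_left _ _).trans ((le_max_left _ _).trans h2)
    have hnn : n₀ ≤ n := (le_max_right _ _).trans ((le_max_left _ _).trans h2)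
    have hn1 : 1 ≤ n := (le_max_right _ _).trans h2
    have hn0 : (0 : ℝ) < n := by exact_mod_cast hn1
    have h3 := hprod n hcn
    have h4 := hn₀ (q * n) (hnn.trans (Nat.le_mul_of_pos_left n (by omega)))
    have h5 := choose_ge (M * (a * (q * n) - c))
    have hcn' : c ≤ a * (q * n) := by
      have h1 : n ≤ q * n := Nat.le_mul_of_pos_left n (by omega)
      have h2 : q * n ≤ a * (q * n) := Nat.le_mul_of_pos_left _ (by omega)
      omega
    have h6 : ((M * (a * (q * n) - c) : ℕ) : ℝ) = M * (n * (a * q - c / n)) := by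
      rw [Nat.cast_mul, Nat.cast_sub hcn']
      push_cast
      field_simp
    rw [h6] at h5
    have h7 : ((M : ℝ) * (n * (a * q - c / n))) ^ 2 / 2 * (γ * n) ≤ w * ((q * n : ℕ) : ℝ) ^ 3 := by
      refine le_trans ?_ h4
      have h8 : (((M * (a * (q * n) - c) + 1).choose 2 : ℕ) : ℝ) *
          (Module.finrank F (Submodule.span F (secL (A ^ b') n : Set K)) : ℝ) ≤
            (h0 (D ^ a * A ^ b) (q * n) : ℝ) := by exact_mod_cast h3
      refine le_trans ?_ h8
      have h9 : ((γ * n : ℕ) : ℝ) ≤ (Module.finrank F (Submodule.span F (secL (A ^ b') n : Set K)) : ℝ) := by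
        exact_mod_cast h1.le
      push_cast at h9
      exact mul_le_mul h5 h9 (by positivity) (Nat.cast_nonneg _)
    have h10 : ((M : ℝ) ^ 2 / 2 * (a * q - (c : ℝ) / n) ^ 2 * γ) * (n : ℝ) ^ 3 ≤ (w * q ^ 3) * (n : ℝ) ^ 3 := by
      calc ((M : ℝ) ^ 2 / 2 * (a * q - (c : ℝ) / n) ^ 2 * γ) * (n : ℝ) ^ 3
          = ((M : ℝ) * (n * (a * q - c / n))) ^ 2 / 2 * (γ * n) := by ring
        _ ≤ w * ((q * n : ℕ) : ℝ) ^ 3 := h7
        _ = (w * q ^ 3) * (n : ℝ) ^ 3 := by
          push_cast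
          ring
    exact le_of_mul_le_mul_right h10 (by positivity)
  have hlim : Filter.Tendsto (fun n : ℕ => (M : ℝ) ^ 2 / 2 * (a * q - (c : ℝ) / n) ^ 2 * γ) Filter.atTop
      (nhds ((M : ℝ) ^ 2 / 2 * (a * q - 0) ^ 2 * γ)) :=
    (((tendsto_const_nhds.sub (tendsto_const_div_atTop_nhds_zero_nat (c : ℝ))).pow 2).const_mul _).mul_const _
  have h1 : (M : ℝ) ^ 2 / 2 * (a * q - 0) ^ 2 * γ ≤ w * q ^ 3 := by
    by_contra hcon
    push Not at hcon
    exact hfin ((hlim.eventually (lt_mem_nhds hcon)).mono fun n hn => not_le.2 hn)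
  have h2 : (γ : ℝ) = (b * q - m * a) * RF h.var h.gen F A - 1 := by
    have h3 : ((γ : ℤ) : ℝ) = ((b' * RF h.var h.gen F A - 1 : ℤ) : ℝ) := by rw [hγ]
    have h4 : (b' : ℝ) = b * q - m * a := by
      have h5 : ((m * a + b' : ℕ) : ℝ) = ((b * q : ℕ) : ℝ) := by rw [hbb]
      push_cast at h5
      linarith
    push_cast at h3
    rw [h3, h4]
  rw [h2, sub_zero] at h1
  have h3 : ((M : ℝ) ^ 2 / 2 * a ^ 2 * ((b * q - m * a) * RF h.var h.gen F A - 1)) * (q : ℝ) ^ 2 ≤
      (w * q) * (q : ℝ) ^ 2 := by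
    calc ((M : ℝ) ^ 2 / 2 * a ^ 2 * ((b * q - m * a) * RF h.var h.gen F A - 1)) * (q : ℝ) ^ 2
        = (M : ℝ) ^ 2 / 2 * (a * q) ^ 2 * ((b * q - m * a) * RF h.var h.gen F A - 1) := by ring
      _ ≤ w * q ^ 3 := h1
      _ = (w * q) * (q : ℝ) ^ 2 := by ring
  exact le_of_mul_le_mul_right h3 (by positivity)

end Pool.Agent.H41.ZC
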