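import Pool.Agent.H39.TU.Mai
import Pool.Agent.H20.TU.GRO
import Pool.Agent.H24.TU.RFG
import Pool.Agent.H83.TU.UB

/-!
# [H41 ZC Gsy] THEOREM Z: the graded system of `D + A' / q`

`D` a divisor with a section, `A'` ample and effective, `q ≥ 2`: `L_n = L (n D + (n / q) A')`, in particular `L_1 = L (D)`.
`gsys_vol`: `dim L_n ≤ w n ^ 3` for large `n` if `vol (q D + A') < w q ^ 3`.
-/

set_option autoImplicit false

open scoped TensorProduct

namespace Pool.Agent.H41.ZC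

open Pool.Agent.H54.RV Pool.Agent.H83.TU Pool.Agent.H24.TU Pool.Agent.H39.TU Pool.Agent.H20.TU

variable {k K : Type} [Field k] [Field K] [Algebra k K] {X : Mod k K}

/-- an effective ample divisor, linearly equivalent to a multiple of `A` -/
theorem exists_eff (h : Hyp X) (A : Cart X) (hA : Ample A) :
    ∃ (m : ℕ) (s : K) (hs : s ≠ 0), 1 ≤ m ∧ Sec A m s ∧ Effective (prin X s hs * A ^ m) ∧
      Ample (prin X s hs * A ^ m) := by
  obtain ⟨g, hg⟩ := h.gen
  obtain ⟨m, hm, s, hs, hnz, -⟩ := hA g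
  have hs0 : s ≠ 0 := fun h1 => hnz.1 (by rw [h1, zero_mul])
  refine ⟨m, s, hs0, hm, hs, fun x => ?_, ?_⟩
  · rw [mul_eq, pow_eq]
    exact hs x
  · rw [mul_comm]
    exact ample_prin (A ^ m) s hs0 (ample_pow A m hm hA)

theorem eff_pow {A : Cart X} (hA : Effective A) (n : ℕ) : Effective (A ^ n) := fun x => by
  rw [pow_eq]
  exact (X.O x).pow_mem (hA x) n

theorem sec_mul' {D E : Cart X} {f g : K} (hf : f ∈ secL D 1) (hg : g ∈ secL E 1) : f * g ∈ secL (D * E) 1 := by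
  intro x
  have h1 := (X.O x).mul_mem (hf x) (hg x)
  rw [mul_eq]
  have h2 : f * g * (D.eq x * E.eq x) ^ 1 = f * D.eq x ^ 1 * (g * E.eq x ^ 1) := by ring
  rw [h2]
  exact h1

theorem sec_eff' {D E : Cart X} {f : K} (hf : f ∈ secL D 1) (hE : Effective E) : f ∈ secL (D * E) 1 := by
  intro x
  have h1 := (X.O x).mul_mem (hf x) (hE x)
  rw [mul_eq]
  have h2 : f * (D.eq x * E.eq x) ^ 1 = f * D.eq x ^ 1 * E.eq x := by ring
  rw [h2]
  exact h1

theorem sec_pow' (D : Cart X) (n : ℕ) : secL (D ^ n) 1 = secL D n := by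
  ext f
  constructor
  · intro h x
    have h1 := h x
    rw [pow_eq, pow_one] at h1
    exact h1
  · intro h x
    rw [pow_eq, pow_one]
    exact h x

theorem sec_pow {D : Cart X} {f : K} (hf : f ∈ secL D 1) (n : ℕ) : f ^ n ∈ secL (D ^ n) 1 := by
  intro x
  have h1 := (X.O x).pow_mem (hf x) n
  rw [pow_eq]
  have h2 : f ^ n * (D.eq x ^ n) ^ 1 = (f * D.eq x ^ 1) ^ n := by ring
  rw [h2]
  exact h1

/-- the graded system of `D + A' / q` -/
noncomputable def gsys [CharZero k] (h : Hyp X) (D A' : Cart X) (hD : 0 < h0 D 1) (hA : Ample A') (hE : Effective A')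
    (q : ℕ) (hq : 2 ≤ q) : GSys k K where
  L n := secL (D ^ n * A' ^ (n / q)) 1
  one_mem := by
    intro x
    rw [pow_zero, Nat.zero_div, pow_zero, mul_one, one_eq, one_pow, mul_one]
    exact (X.O x).one_mem
  mul_mem := by
    intro m n a b ha hb
    obtain ⟨i, hi⟩ : ∃ i, (m + n) / q = m / q + n / q + i := Nat.exists_eq_add_of_le (Nat.add_div_le_add_div m n q)
    have h1 := sec_eff' (sec_mul' ha hb) (eff_pow hE i)
    have h2 : D ^ m * A' ^ (m / q) * (D ^ n * A' ^ (n / q)) * A' ^ i = D ^ (m + n) * A' ^ ((m + n) / q) := by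
      rw [hi, pow_add, pow_add, pow_add]
      ac_rfl
    rwa [h2] at h1
  fin n := (gf h.var h.gen h.tr).1 _ 1
  ne_bot := by
    intro h1
    have h2 : D ^ 1 * A' ^ (1 / q) = D := by
      rw [Nat.div_eq_of_lt (by omega), pow_zero, mul_one, pow_one]
    rw [h2] at h1
    unfold h0 at hD
    rw [h1, finrank_bot] at hD
    exact lt_irrefl _ hD
  frac := by
    intro f
    obtain ⟨n, a, ha, s, hs, hs0, hfs⟩ := frac_sec h (uf_all h.var) A' hA f
    have hne : secL D 1 ≠ ⊥ := by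
      intro h1
      unfold h0 at hD
      rw [h1, finrank_bot] at hD
      exact lt_irrefl _ hD
    obtain ⟨t, ht, ht0⟩ := Submodule.exists_mem_ne_zero_of_ne_bot hne
    have h1 : ∀ b ∈ secL A' n, t ^ (q * n) * b ∈ secL (D ^ (q * n) * A' ^ (q * n / q)) 1 := by
      intro b hb
      rw [← sec_pow'] at hb
      rw [Nat.mul_div_cancel_left n (by omega)]
      exact sec_mul' (sec_pow ht _) hb
    refine ⟨q * n, t ^ (q * n) * a, h1 a ha, t ^ (q * n) * s, h1 s hs, mul_ne_zero (pow_ne_zero _ ht0) hs0, ?_⟩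
    rw [← hfs]
    ring

theorem gsys_L [CharZero k] (h : Hyp X) (D A' : Cart X) (hD : 0 < h0 D 1) (hA : Ample A') (hE : Effective A')
    (q : ℕ) (hq : 2 ≤ q) (n : ℕ) : (gsys h D A' hD hA hE q hq).L n = secL (D ^ n * A' ^ (n / q)) 1 := rfl

theorem gsys_one [CharZero k] (h : Hyp X) (D A' : Cart X) (hD : 0 < h0 D 1) (hA : Ample A') (hE : Effective A')
    (q : ℕ) (hq : 2 ≤ q) : (gsys h D A' hD hA hE q hq).L 1 = secL D 1 := by
  rw [gsys_L, Nat.div_eq_of_lt (by omega), pow_zero, mul_one, pow_one]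

theorem gsys_le [CharZero k] (h : Hyp X) (D A' : Cart X) (hD : 0 < h0 D 1) (hA : Ample A') (hE : Effective A')
    (q : ℕ) (hq : 2 ≤ q) (n m : ℕ) (hnm : n ≤ q * m) :
    Module.finrank k ((gsys h D A' hD hA hE q hq).L n) ≤ h0 (D ^ q * A') m := by
  rw [gsys_L]
  have hne : secL D 1 ≠ ⊥ := by
    intro h1
    unfold h0 at hD
    rw [h1, finrank_bot] at hD
    exact lt_irrefl _ hD
  obtain ⟨t, ht, ht0⟩ := Submodule.exists_mem_ne_zero_of_ne_bot hne
  have hfin : Module.Finite k (secL (D ^ q * A') m) := (gf h.var h.gen h.tr).1 _ m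
  have h1 : ∀ b ∈ secL (D ^ n * A' ^ (n / q)) 1, t ^ (q * m - n) * b ∈ secL (D ^ q * A') m := by
    intro b hb
    obtain ⟨i, hi⟩ : ∃ i, m = n / q + i := Nat.exists_eq_add_of_le (by
      have h3 := Nat.div_le_div_right (c := q) hnm
      rwa [Nat.mul_div_cancel_left m (by omega)] at h3)
    have h3 := sec_eff' (sec_mul' (sec_pow ht (q * m - n)) hb) (eff_pow hE i)
    have h4 : D ^ (q * m - n) * (D ^ n * A' ^ (n / q)) * A' ^ i = (D ^ q * A') ^ m := by
      rw [mul_pow, ← pow_mul]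
      conv_rhs => rw [hi, pow_add A']
      rw [← hi]
      have h5 : D ^ (q * m) = D ^ (q * m - n) * D ^ n := by rw [← pow_add, Nat.sub_add_cancel hnm]
      rw [h5]
      ac_rfl
    rw [h4, sec_pow'] at h3
    exact h3
  unfold h0
  refine LinearMap.finrank_le_finrank_of_injective (f := LinearMap.codRestrict (secL (D ^ q * A') m)
    ((LinearMap.mulLeft k (t ^ (q * m - n))).comp (secL (D ^ n * A' ^ (n / q)) 1).subtype)
    (fun b => h1 b b.2)) ?_
  rw [← LinearMap.ker_eq_bot, LinearMap.ker_eq_bot']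
  intro b hb
  have h2 := congrArg Subtype.val hb
  have h3 : t ^ (q * m - n) * (b : K) = 0 := h2
  rcases mul_eq_zero.1 h3 with h4 | h4
  · exact absurd h4 (pow_ne_zero _ ht0)
  · exact Subtype.ext h4

theorem gsys_vol [CharZero k] (h : Hyp X) (D A' : Cart X) (hD : 0 < h0 D 1) (hA : Ample A') (hE : Effective A')
    (q : ℕ) (hq : 2 ≤ q) (w : ℝ) (hw : vol (D ^ q * A') < w * q ^ 3) :
    ∀ᶠ n : ℕ in Filter.atTop, (Module.finrank k ((gsys h D A' hD hA hE q hq).L n) : ℝ) ≤ w * (n : ℝ) ^ 3 := by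
  obtain ⟨w', hw1, hw2⟩ := exists_between hw
  have hq0 : (0 : ℝ) < q := by
    have : 0 < q := by omega
    exact_mod_cast this
  have hev := vol_ev (gf h.var h.gen h.tr) (D ^ q * A') w' hw1
  obtain ⟨m₀, hm₀⟩ := Filter.eventually_atTop.1 hev
  have hw'0 : 0 ≤ w' := by
    have h1 := hm₀ (max m₀ 1) (le_max_left _ _)
    have h2 : (0 : ℝ) ≤ (h0 (D ^ q * A') (max m₀ 1) : ℝ) := Nat.cast_nonneg _
    have h3 : (0 : ℝ) < ((max m₀ 1 : ℕ) : ℝ) := by exact_mod_cast lt_of_lt_of_le Nat.one_pos (le_max_right _ _)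
    by_contra hneg
    push Not at hneg
    have := mul_neg_of_neg_of_pos hneg (pow_pos h3 3)
    linarith
  -- (n / q + 1) ^ 3 w' ≤ w n ^ 3
  have hlim : Filter.Tendsto (fun n : ℕ => w' * (1 / (q : ℝ) + 1 / (n : ℝ)) ^ 3) Filter.atTop
      (nhds (w' * (1 / (q : ℝ) + 0) ^ 3)) :=
    ((tendsto_const_nhds.add (tendsto_const_div_atTop_nhds_zero_nat 1)).pow 3).const_mul w'
  have h1 : w' * (1 / (q : ℝ) + 0) ^ 3 < w := by
    rw [add_zero, div_pow, one_pow, mul_one_div, div_lt_iff₀ (by positivity)]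
    exact hw2
  filter_upwards [hlim.eventually (gt_mem_nhds h1), Filter.eventually_ge_atTop (max (q * m₀) 1)] with n h2 hn
  have hn1 : 1 ≤ n := (le_max_right _ _).trans hn
  have hnq : q * m₀ ≤ n := (le_max_left _ _).trans hn
  have hn0 : (0 : ℝ) < n := by exact_mod_cast hn1
  have h3 : m₀ ≤ n / q + 1 := by
    have h4 : m₀ ≤ n / q := (Nat.le_div_iff_mul_le (by omega)).2 (by
      rw [mul_comm]
      exact hnq)
    omega
  have h4 := hm₀ (n / q + 1) h3
  have h5 : n ≤ q * (n / q + 1) := (Nat.lt_mul_div_succ n (by omega)).le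
  have h6 := gsys_le h D A' hD hA hE q hq n (n / q + 1) h5
  have h7 : (((n / q + 1 : ℕ) : ℝ)) ≤ n * (1 / (q : ℝ) + 1 / (n : ℝ)) := by
    have h8 : ((n / q : ℕ) : ℝ) ≤ (n : ℝ) / q := Nat.cast_div_le
    have h9 : (n : ℝ) * (1 / (q : ℝ) + 1 / (n : ℝ)) = n / q + 1 := by
      field_simp
    rw [h9]
    push_cast
    linarith
  calc (Module.finrank k ((gsys h D A' hD hA hE q hq).L n) : ℝ) ≤ (h0 (D ^ q * A') (n / q + 1) : ℝ) := by
        exact_mod_cast h6
    _ ≤ w' * ((n / q + 1 : ℕ) : ℝ) ^ 3 := h4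
    _ ≤ w' * (n * (1 / (q : ℝ) + 1 / (n : ℝ))) ^ 3 :=
        mul_le_mul_of_nonneg_left (pow_le_pow_left₀ (Nat.cast_nonneg _) h7 3) hw'0
    _ = (w' * (1 / (q : ℝ) + 1 / (n : ℝ)) ^ 3) * (n : ℝ) ^ 3 := by ring
    _ ≤ w * (n : ℝ) ^ 3 := mul_le_mul_of_nonneg_right h2.le (by positivity)

end Pool.Agent.H41.ZC
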